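import Pool.Agent.Q49.MU.Basic

/-!
# The cyclotomic μ-invariant over imaginary quadratic fields: exact reductions

Fix a prime `p` and an imaginary quadratic field `k`. For a number field `K` let `X K` say that the
`μ`-invariant of `A(K_∞^cyc)` vanishes.

**Theorem.** Let `R 0, R 1, ...` be an increasing sequence of finite abelian extensions of `k` such that every
finite abelian extension of `k` embeds in some `R n` (for instance the ray class fields of conductor
`n!`). The following are equivalent.

1. Q1 for `p` and `k`: `X K` holds for all finite abelian extensions `K` of `k`.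
2. `X K` holds for all finite cyclic extensions `K` of `k` of degree prime to `p`.
3. `X K` holds for all finite cyclic extensions `K` of `k` of degree prime to `p` which are not abelian over
   `ℚ`.
4. `X (R n)` holds for infinitely many `n`.

Known facts (`IsSetting`): subfields; Galois extensions of `p`-power degree (Iwasawa 1973; the fields are
totally imaginary); for an abelian extension of degree prime to `p` the module is the direct sum of its
components for the characters, and the component for a character is up to finite groups that of the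
cyclic extension belonging to it; Ferrero and Washington.
-/

set_option autoImplicit false

namespace Pool.Agent.Results.MP_b78433_nt.PrimeToP

open Pool.Agent.Q49.MU NumberField

/-- `K` is a finite abelian extension of `k`. -/
def Abelian (k K : Type) [Field k] [Field K] [Algebra k K] : Prop :=
  FiniteDimensional k K ∧ IsGalois k K ∧ ∀ a b : K ≃ₐ[k] K, a * b = b * a

/-- The known facts. -/
structure IsSetting (p : ℕ) (X : (F : Type) → [Field F] → Prop) (k : Type) [Field k] : Prop where
  mono : Mono X
  pext : PExt p X k
  /-- decomposition into components for the characters -/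
  decomposition : ∀ (K : Type) [Field K] [NumberField K] [Algebra k K], Abelian k K →
    ¬ p ∣ Module.finrank k K → (∀ F : IntermediateField k K, IsGalois k F →
      IsCyclic (F ≃ₐ[k] F) → X F) → X K
  /-- Ferrero and Washington -/
  ferrero_washington : ∀ (K : Type) [Field K] [NumberField K], Abelian ℚ K → X K

/-- **The cyclotomic μ-invariant over imaginary quadratic fields: exact reductions.** See the
explanations above. -/
theorem result (p : ℕ) [Fact p.Prime] (X : (F : Type) → [Field F] → Prop) (k : Type) [Field k]
    [NumberField k] (h : IsSetting p X k) (R : ℕ → Type) [∀ n, Field (R n)] [∀ n, NumberField (R n)]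
    [∀ n, Algebra k (R n)] (hR : ∀ n, Abelian k (R n))
    (hcof : ∀ (K : Type) [Field K] [NumberField K] [Algebra k K], Abelian k K →
      ∃ m, ∀ n ≥ m, Nonempty (K →ₐ[k] R n)) : List.TFAE [
      ∀ (K : Type) [Field K] [NumberField K] [Algebra k K], Abelian k K → X K,
      ∀ (K : Type) [Field K] [NumberField K] [Algebra k K], IsGalois k K →
        IsCyclic (K ≃ₐ[k] K) → ¬ p ∣ Module.finrank k K → X K,
      ∀ (K : Type) [Field K] [NumberField K] [Algebra k K], IsGalois k K →
        IsCyclic (K ≃ₐ[k] K) → ¬ p ∣ Module.finrank k K → ¬ Abelian ℚ K → X K,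
      ∃ᶠ n in Filter.atTop, X (R n)] := by
  have hfin : ∀ (K : Type) [Field K] [NumberField K] [Algebra k K], FiniteDimensional k K := by
    intro K _ _ _
    have : IsScalarTower ℚ k K := IsScalarTower.of_algebraMap_eq fun x => by simp
    exact Module.Finite.of_restrictScalars_finite ℚ k K
  tfae_have 1 → 2 := by
    intro h1 K _ _ _ h2 h3 _
    refine h1 K ⟨hfin K, h2, fun a b => ?_⟩
    exact mul_comm' a b
  tfae_have 2 → 3 := fun h1 K _ _ _ h2 h3 h4 _ => h1 K h2 h3 h4
  tfae_have 3 → 1 := by
    intro h1 K _ _ _ hK
    obtain ⟨hKf, hKg, hKc⟩ := hK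
    obtain ⟨P⟩ : Nonempty (Sylow p (K ≃ₐ[k] K)) := inferInstance
    have hnorm : (P : Subgroup (K ≃ₐ[k] K)).Normal := by
      refine ⟨fun a ha b => ?_⟩
      have h5 : b * a * b⁻¹ = a := by rw [hKc b a, mul_assoc, mul_inv_cancel, mul_one]
      rw [h5]
      exact ha
    let F := IntermediateField.fixedField (P : Subgroup (K ≃ₐ[k] K))
    have hFn : NumberField F := NumberField.of_module_finite k F
    have hFg : IsGalois k F := IsGalois.of_fixedField_normal_subgroup (P : Subgroup (K ≃ₐ[k] K))
    have hFr : Module.finrank k F = (P : Subgroup (K ≃ₐ[k] K)).index := by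
      have a1 := Module.finrank_mul_finrank k F K
      have a2 : Module.finrank F K = Nat.card (P : Subgroup (K ≃ₐ[k] K)) :=
        IntermediateField.finrank_fixedField_eq_card _
      have a3 : Nat.card (K ≃ₐ[k] K) = Module.finrank k K := IsGalois.card_aut_eq_finrank k K
      have a4 := (P : Subgroup (K ≃ₐ[k] K)).card_mul_index
      rw [a3, ← a1, a2, mul_comm (Module.finrank k F)] at a4
      exact (Nat.eq_of_mul_eq_mul_left Nat.card_pos a4).symm
    have hFd : ¬ p ∣ Module.finrank k F := by
      rw [hFr]
      exact Sylow.not_dvd_index P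
    have hFc : ∀ a b : F ≃ₐ[k] F, a * b = b * a := by
      intro a b
      have hs : Function.Surjective (AlgEquiv.restrictNormalHom (F := k) (K₁ := K) F) :=
        AlgEquiv.restrictNormalHom_surjective K
      obtain ⟨a', rfl⟩ := hs a
      obtain ⟨b', rfl⟩ := hs b
      rw [← map_mul, ← map_mul, hKc]
    have hXF : X F := by
      refine h.decomposition F ⟨hfin F, hFg, hFc⟩ hFd fun E hE1 hE2 => ?_
      have hEn : NumberField E := NumberField.of_module_finite k E
      have hEd : ¬ p ∣ Module.finrank k E := fun h5 => hFd
        (h5.trans ⟨_, (Module.finrank_mul_finrank k E F).symm⟩)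
      by_cases hQ : Abelian ℚ E
      · exact h.ferrero_washington E hQ
      · exact h1 E hE1 hE2 hEd hQ
    have hgal : IsGalois F K := inferInstance
    refine h.pext F K hgal ?_ hXF
    have e : (P : Subgroup (K ≃ₐ[k] K)) ≃* (K ≃ₐ[F] K) := IntermediateField.subgroupEquivAlgEquiv _
    exact IsPGroup.of_equiv P.isPGroup' e
  tfae_have 1 → 4 := fun h1 => Filter.Frequently.of_forall fun n => h1 (R n) (hR n)
  tfae_have 4 → 1 := by
    intro h1 K _ _ _ hK
    obtain ⟨m, hm⟩ := hcof K hK
    obtain ⟨n, hn, h2⟩ := Filter.frequently_atTop.mp h1 m
    obtain ⟨i⟩ := hm n hn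
    let _ : Algebra K (R n) := (i : K →+* R n).toAlgebra
    exact h.mono K (R n) h2
  tfae_finish

end Pool.Agent.Results.MP_b78433_nt.PrimeToP
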