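import Pool.Agent.Q60.MU.RealFields

/-!
# Abelian extensions of imaginary quadratic fields and real fields

`R 0, R 1, ...` is the tower of the layers of the cyclotomic `ℤ_p`-extension of `ℚ` (any tower of
Galois extensions of `ℚ` with the property `FinDec` is allowed).
-/

set_option autoImplicit false

namespace Pool.Agent.Results.MP_b78433_nt.RealFields

open Pool.Agent.Q60.MU IntermediateField Module

/-- `F` is a number field fixed by `c` (real), not Galois over `ℚ`, of degree prime to `p`, and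
`F k` is Galois over `ℚ` and abelian over `k`. -/
def RealField (p : ℕ) (k : IntermediateField ℚ Qb) (c : Gal(Qb/ℚ))
    (F : IntermediateField ℚ Qb) : Prop :=
  FiniteDimensional ℚ F ∧ (∀ x ∈ F, c x = x) ∧ IsGalois ℚ (F ⊔ k : IntermediateField ℚ Qb) ∧
    AbOver k (F ⊔ k) ∧ ¬ p ∣ finrank ℚ F ∧ ¬ IsGalois ℚ F

theorem result (p : ℕ) [Fact p.Prime] (R : ℕ → IntermediateField ℚ Qb)
    (hR : ∀ m, FiniteDimensional ℚ (R m)) (hRn : ∀ m, IsGalois ℚ (R m)) (hd : FinDec R)
    -- Ferrero-Washington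
    (hFW : ∀ E : IntermediateField ℚ Qb, FiniteDimensional ℚ E → AbOver ⊥ E → MuZero p R E)
    -- an imaginary quadratic field and complex conjugation
    (k : IntermediateField ℚ Qb) (hk : finrank ℚ k = 2) (c : Gal(Qb/ℚ)) (hc : c * c = 1)
    (hck : ∃ x ∈ k, c x ≠ x) :
    -- one field
    (∀ K : IntermediateField ℚ Qb, FiniteDimensional ℚ K → AbOver k K → IsGalois ℚ K →
      MuZero p R K ∨ ∃ F ≤ K, RealField p k c F ∧ (MuZero p R K ↔ MuZero p R F)) ∧
    -- all fields
    ((∀ K : IntermediateField ℚ Qb, FiniteDimensional ℚ K → AbOver k K → MuZero p R K) ↔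
      ∀ F : IntermediateField ℚ Qb, RealField p k c F → MuZero p R F) := by
  refine ⟨fun K hK hKk hKg => ?_, ?_, ?_⟩
  · obtain ⟨F, h1, h2, h3, h4, h5, h6, h7⟩ :=
      real_of_abOver p R hR hRn hd hFW k hk c hc hck K hK hKk
    by_cases hg : IsGalois ℚ F
    · exact Or.inl (h7 (hFW F h1 (ab_of_real hk hck h2 hg h4)))
    · exact Or.inr ⟨F, h6 hKg, ⟨h1, h2, h3, h4, h5, hg⟩,
        fun h => mu_le p R hR hRn hd K hK hKg h F (h6 hKg), h7⟩
  · rintro h F ⟨h1, _, h3, h4, _, _⟩
    have hkf : FiniteDimensional ℚ k := FiniteDimensional.of_finrank_pos (by rw [hk]; norm_num)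
    have hf : FiniteDimensional ℚ (F ⊔ k : IntermediateField ℚ Qb) := inferInstance
    exact mu_le p R hR hRn hd (F ⊔ k) hf h3 (h _ hf h4) F le_sup_left
  · intro h K hK hKk
    obtain ⟨F, h1, h2, h3, h4, h5, _, h7⟩ :=
      real_of_abOver p R hR hRn hd hFW k hk c hc hck K hK hKk
    by_cases hg : IsGalois ℚ F
    · exact h7 (hFW F h1 (ab_of_real hk hck h2 hg h4))
    · exact h7 (h F ⟨h1, h2, h3, h4, h5, hg⟩)

end Pool.Agent.Results.MP_b78433_nt.RealFields
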